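import Mathlib

/-!
MP_aca66f_gt, Q1 (yes).  In the Michael line `X` (a normal space) the set `E` of irrationals is
functionally `G_δ` but not `1`-embedded.
-/

namespace Pool.Agent.Results.MP_aca66f_gt.MichaelLine

open Set Topology Filter

/-- `A = f⁻¹((0,1])` for some continuous `f : X → [0,1]`. -/
def FunctionallyOpen {X : Type*} [TopologicalSpace X] (A : Set X) : Prop :=
  ∃ f : X → unitInterval, Continuous f ∧ A = f ⁻¹' Ioc 0 1

/-- `A = f⁻¹(0)` for some continuous `f : X → [0,1]`. -/
def FunctionallyClosed {X : Type*} [TopologicalSpace X] (A : Set X) : Prop :=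
  ∃ f : X → unitInterval, Continuous f ∧ A = f ⁻¹' {0}

/-- Countable intersections of functionally open sets. -/
def FunctionallyGδ {X : Type*} [TopologicalSpace X] (A : Set X) : Prop :=
  ∃ G : ℕ → Set X, (∀ n, FunctionallyOpen (G n)) ∧ A = ⋂ n, G n

/-- Countable unions of functionally closed sets. -/
def FunctionallyFσ {X : Type*} [TopologicalSpace X] (A : Set X) : Prop :=
  ∃ G : ℕ → Set X, (∀ n, FunctionallyClosed (G n)) ∧ A = ⋃ n, G n

/-- `E` is `1`-embedded in `X`. -/
def OneEmbedded {X : Type*} [TopologicalSpace X] (E : Set X) : Prop :=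
  (∀ A : Set E, FunctionallyFσ A → ∃ B : Set X, FunctionallyFσ B ∧ A = Subtype.val ⁻¹' B) ∧
  (∀ A : Set E, FunctionallyGδ A → ∃ B : Set X, FunctionallyGδ B ∧ A = Subtype.val ⁻¹' B)

/-- The Michael line: the reals with the irrational points made isolated. -/
structure Michael where
  /-- the underlying real number -/
  val : ℝ

lemma Michael.ext' {x y : Michael} (h : x.val = y.val) : x = y := by
  cases x; cases y; simp_all

/-- The set of reals corresponding to a set of points of the Michael line. -/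
def under (U : Set Michael) : Set ℝ := {x | Michael.mk x ∈ U}

/-- A set is open if it is a Euclidean neighbourhood of each of its rational points. -/
instance : TopologicalSpace Michael where
  IsOpen U := ∀ q : ℚ, (q : ℝ) ∈ under U → under U ∈ 𝓝 (q : ℝ)
  isOpen_univ := fun _ _ => univ_mem
  isOpen_inter := fun _ _ hU hV q hq => inter_mem (hU q hq.1) (hV q hq.2)
  isOpen_sUnion := by
    rintro S hS q ⟨U, hU, hq⟩
    exact mem_of_superset (hS U hU q hq) fun x hx => ⟨U, hU, hx⟩

lemma isOpen_iff {U : Set Michael} :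
    IsOpen U ↔ ∀ q : ℚ, (q : ℝ) ∈ under U → under U ∈ 𝓝 (q : ℝ) := Iff.rfl

/-- The topology of the Michael line is finer than the Euclidean one. -/
lemma continuous_val : Continuous Michael.val := by
  refine ⟨fun s hs => ?_⟩
  rw [isOpen_iff]
  intro q hq
  exact hs.mem_nhds hq

/-- The irrationals in the Michael line. -/
def E : Set Michael := {x | Irrational x.val}

lemma isOpen_of_subset_E {U : Set Michael} (hU : U ⊆ E) : IsOpen U := by
  rw [isOpen_iff]
  intro q hq
  exact absurd (hU hq) (by simp [E])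

instance : T1Space Michael := by
  refine ⟨fun x => ?_⟩
  have : ({x} : Set Michael) = Michael.val ⁻¹' {x.val} := by
    ext y
    exact ⟨fun h => congrArg _ h, fun h => Michael.ext' h⟩
  rw [this]
  exact isClosed_singleton.preimage continuous_val

/-- The Michael line is normal. -/
instance : NormalSpace Michael := by
  classical
  -- a radius function
  have key : ∀ A B : Set Michael, IsClosed B → Disjoint A B → ∃ r : Michael → ℝ,
      ∀ a ∈ A, 0 < r a ∧ (¬ Irrational a.val → ∀ b ∈ B, r a ≤ |b.val - a.val|) := by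
    intro A B hB hAB
    have h1 : ∀ a : Michael, ∃ r : ℝ, a ∈ A → 0 < r ∧
        (¬ Irrational a.val → ∀ b ∈ B, r ≤ |b.val - a.val|) := by
      intro a
      by_cases ha : a ∈ A
      · by_cases hirr : Irrational a.val
        · exact ⟨1, fun _ => ⟨one_pos, fun h => absurd hirr h⟩⟩
        · have hq : ∃ q : ℚ, (q : ℝ) = a.val := by
            simpa [Irrational] using hirr
          obtain ⟨q, hq⟩ := hq
          have haB : a ∈ Bᶜ := fun h => hAB.le_bot ⟨ha, h⟩
          have h2 : (q : ℝ) ∈ under Bᶜ := by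
            change Michael.mk q ∈ Bᶜ
            rwa [show Michael.mk q = a from Michael.ext' hq]
          have h3 := isOpen_iff.1 hB.isOpen_compl q h2
          obtain ⟨r, hr, hrB⟩ := Metric.mem_nhds_iff.1 h3
          refine ⟨r, fun _ => ⟨hr, fun _ b hb => ?_⟩⟩
          by_contra hcon
          push Not at hcon
          have h4 : b.val ∈ Metric.ball (q : ℝ) r := by
            rw [Metric.mem_ball, Real.dist_eq, hq]; exact hcon
          exact hrB h4 hb
      · exact ⟨0, fun h => absurd h ha⟩
    choose r hr using h1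
    exact ⟨r, fun a ha => hr a ha⟩
  -- the associated neighbourhoods
  let N : Set Michael → (Michael → ℝ) → Set Michael := fun A r =>
    A ∪ {x | ∃ a ∈ A, ¬ Irrational a.val ∧ |x.val - a.val| < r a / 2}
  have hN : ∀ A r, (∀ a ∈ A, 0 < r a) → IsOpen (N A r) := by
    intro A r hr
    rw [isOpen_iff]
    intro q hq
    have hball : ∀ a : Michael, IsOpen {x : ℝ | |x - a.val| < r a / 2} := fun a =>
      isOpen_lt (by fun_prop) continuous_const
    rcases hq with hq | ⟨a, ha, hirr, hqa⟩
    · have hpos := hr _ hq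
      refine mem_of_superset ((hball (Michael.mk q)).mem_nhds ?_) ?_
      · change |(q : ℝ) - q| < _
        rw [sub_self, abs_zero]; positivity
      · intro x hx
        exact Or.inr ⟨Michael.mk q, hq, by simp, hx⟩
    · refine mem_of_superset ((hball a).mem_nhds hqa) ?_
      intro x hx
      exact Or.inr ⟨a, ha, hirr, hx⟩
  refine ⟨fun A B hA hB hAB => ?_⟩
  obtain ⟨r, hr⟩ := key A B hB hAB
  obtain ⟨s, hs⟩ := key B A hA hAB.symm
  refine ⟨N A r, N B s, hN A r fun a ha => (hr a ha).1, hN B s fun b hb => (hs b hb).1,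
    subset_union_left, subset_union_left, ?_⟩
  rw [Set.disjoint_left]
  rintro x (hxA | ⟨a, ha, hia, hxa⟩) (hxB | ⟨b, hb, hib, hxb⟩)
  · exact hAB.le_bot ⟨hxA, hxB⟩
  · have h1 := (hs b hb).2 hib x hxA
    have h2 := (hs b hb).1
    linarith
  · have h1 := (hr a ha).2 hia x hxB
    have h2 := (hr a ha).1
    linarith
  · have h1 := (hr a ha).2 hia b hb
    have h2 := (hs b hb).2 hib a ha
    have h3 : |b.val - a.val| < r a / 2 + s b / 2 := by
      have h4 : |b.val - a.val| ≤ |x.val - a.val| + |x.val - b.val| := by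
        have : b.val - a.val = (x.val - a.val) - (x.val - b.val) := by ring
        rw [this]; exact abs_sub _ _
      linarith
    rw [abs_sub_comm] at h2
    linarith

/-- The irrationals are functionally `G_δ`. -/
lemma functionallyGδ_E : FunctionallyGδ E := by
  obtain ⟨q, hq⟩ := exists_surjective_nat ℚ
  let f : ℕ → Michael → unitInterval := fun n x =>
    Set.projIcc 0 1 zero_le_one |x.val - (q n : ℝ)|
  have hf : ∀ n, Continuous (f n) := fun n =>
    continuous_projIcc.comp ((continuous_val.sub continuous_const).abs)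
  have hmem : ∀ n x, x ∈ f n ⁻¹' Ioc 0 1 ↔ x.val ≠ q n := by
    intro n x
    have h1 : f n x ≤ 1 := unitInterval.le_one' 
    have h2 : (0 : unitInterval) < f n x ↔ x.val ≠ q n := by
      constructor
      · intro h heq
        simp [f, heq] at h
      · intro h
        have h3 : 0 < |x.val - (q n : ℝ)| := abs_pos.2 (sub_ne_zero.2 h)
        rw [← Subtype.coe_lt_coe]
        simp only [f, Set.coe_projIcc]
        exact lt_max_of_lt_right (lt_min one_pos h3)
    exact ⟨fun h => h2.1 h.1, fun h => ⟨h2.2 h, h1⟩⟩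
  refine ⟨fun n => f n ⁻¹' Ioc 0 1, fun n => ⟨f n, hf n, rfl⟩, ?_⟩
  ext x
  rw [mem_iInter]
  constructor
  · intro hx n
    rw [hmem]
    intro h
    exact hx ⟨q n, h.symm⟩
  · intro h ⟨p, hp⟩
    obtain ⟨n, rfl⟩ := hq p
    exact (hmem n x).1 (h n) hp.symm

/-- A zero set of the Michael line is Euclidean nowhere dense or residual in some open set. -/
lemma zero_set_dichotomy {Z : Set Michael} (hZ : FunctionallyClosed Z) :
    IsNowhereDense (under Z) ∨ ∃ J : Set ℝ, IsOpen J ∧ J.Nonempty ∧ IsMeagre (J \ under Z) := by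
  obtain ⟨f, hf, rfl⟩ := hZ
  by_cases hnd : IsNowhereDense (under (f ⁻¹' {0}))
  · exact Or.inl hnd
  right
  refine ⟨interior (closure (under (f ⁻¹' {0}))), isOpen_interior,
    nonempty_iff_ne_empty.2 hnd, ?_⟩
  set J := interior (closure (under (f ⁻¹' {0}))) with hJ
  -- `f` vanishes at the rational points of `J`
  have hrat : ∀ q : ℚ, (q : ℝ) ∈ J → f ⟨q⟩ = 0 := by
    intro q hq
    by_contra hne
    have hO : IsOpen (f ⁻¹' {0}ᶜ) := isOpen_compl_singleton.preimage hf
    have h1 := isOpen_iff.1 hO q hne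
    have h2 : (q : ℝ) ∈ closure (under (f ⁻¹' {0})) := interior_subset hq
    obtain ⟨y, hy1, hy2⟩ := mem_closure_iff_nhds.1 h2 _ h1
    exact hy1 hy2
  -- dense open sets
  let O : ℕ → Set Michael := fun n => f ⁻¹' {t | (t : ℝ) < 1 / ((n : ℝ) + 1)}
  have hO : ∀ n, IsOpen (O n) := fun n =>
    (isOpen_lt continuous_subtype_val continuous_const).preimage hf
  let D : ℕ → Set ℝ := fun n => interior (under (O n)) ∪ interior Jᶜ
  have hD : ∀ n, D n ∈ residual ℝ := by
    intro n
    refine residual_of_dense_open (isOpen_interior.union isOpen_interior) ?_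
    rw [dense_iff_inter_open]
    intro U hU hne
    by_cases hUJ : (U ∩ J).Nonempty
    · obtain ⟨q, hq⟩ := Rat.denseRange_cast.exists_mem_open (hU.inter isOpen_interior) hUJ
      refine ⟨q, hq.1, Or.inl ?_⟩
      rw [mem_interior_iff_mem_nhds]
      refine isOpen_iff.1 (hO n) q ?_
      change ((f ⟨q⟩ : unitInterval) : ℝ) < _
      rw [hrat q hq.2]
      change (0 : ℝ) < 1 / ((n : ℝ) + 1)
      positivity
    · obtain ⟨x, hx⟩ := hne
      refine ⟨x, hx, Or.inr ?_⟩
      exact mem_interior.2 ⟨U, fun y hy hyJ => hUJ ⟨y, hy, hyJ⟩, hU, hx⟩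
  have hsub : J \ under (f ⁻¹' {0}) ⊆ ⋃ n, (D n)ᶜ := by
    rintro x ⟨hxJ, hx⟩
    have hpos : 0 < ((f ⟨x⟩ : unitInterval) : ℝ) := by
      rcases (f ⟨x⟩).2.1.eq_or_lt with h | h
      · exact absurd (Subtype.ext h.symm : f ⟨x⟩ = 0) hx
      · exact h
    obtain ⟨n, hn⟩ := exists_nat_one_div_lt hpos
    refine mem_iUnion.2 ⟨n, ?_⟩
    rintro (h | h)
    · have h1 : x ∈ under (O n) := interior_subset h
      have h2 : ((f ⟨x⟩ : unitInterval) : ℝ) < 1 / ((n : ℝ) + 1) := h1
      linarith
    · exact (interior_subset h) hxJ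
  refine IsMeagre.mono hsub (isMeagre_iUnion fun n => ?_)
  change (D n)ᶜᶜ ∈ residual ℝ
  rw [compl_compl]
  exact hD n

/-- A nonzero `ℚ`-linear functional on `ℝ` vanishing on `ℚ`. -/
lemma exists_functional : ∃ (φ : ℝ →ₗ[ℚ] ℚ) (v : ℝ), φ v ≠ 0 ∧ ∀ q : ℚ, φ (q : ℝ) = 0 := by
  have hnot : √2 ∉ Submodule.span ℚ {(1 : ℝ)} := by
    rw [Submodule.mem_span_singleton]
    rintro ⟨a, ha⟩
    refine irrational_sqrt_two ⟨a, ?_⟩
    rw [← ha, Rat.smul_def, mul_one]
  obtain ⟨φ, h1, h2⟩ := Submodule.exists_le_ker_of_notMem hnot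
  refine ⟨φ, √2, h1, fun q => ?_⟩
  have : (q : ℝ) ∈ Submodule.span ℚ {(1 : ℝ)} := by
    rw [Submodule.mem_span_singleton]
    exact ⟨q, by rw [Rat.smul_def, mul_one]⟩
  exact h2 this

lemma isMeagre_translate {A : Set ℝ} (hA : IsMeagre A) (t : ℝ) :
    IsMeagre ((fun x => x + t) ⁻¹' A) :=
  hA.preimage_of_isOpenMap (continuous_id.add continuous_const)
    (Homeomorph.addRight t).isOpenMap

/-- The kernel of such a functional is non-meagre in each open set. -/
lemma not_meagre_ker (φ : ℝ →ₗ[ℚ] ℚ) (hφ : ∀ q : ℚ, φ (q : ℝ) = 0) {J : Set ℝ} (hJ : IsOpen J)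
    (hne : J.Nonempty) : ¬ IsMeagre (J ∩ {x | φ x = 0}) := by
  intro hm
  have hker : IsMeagre {x : ℝ | φ x = 0} := by
    have hsub : {x : ℝ | φ x = 0} ⊆ ⋃ q : ℚ, (fun x => x + (q : ℝ)) ⁻¹' (J ∩ {x | φ x = 0}) := by
      intro x hx
      have hO : IsOpen ((fun t : ℝ => x + t) ⁻¹' J) :=
        hJ.preimage (continuous_const.add continuous_id)
      have hOne : ((fun t : ℝ => x + t) ⁻¹' J).Nonempty := by
        obtain ⟨j, hj⟩ := hne
        exact ⟨j - x, by simpa using hj⟩
      obtain ⟨q, hq⟩ := Rat.denseRange_cast.exists_mem_open hO hOne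
      refine mem_iUnion.2 ⟨q, hq, ?_⟩
      change φ (x + q) = 0
      rw [map_add, hφ, add_zero]
      exact hx
    exact IsMeagre.mono hsub (isMeagre_iUnion fun q => isMeagre_translate hm _)
  have huniv : IsMeagre (univ : Set ℝ) := by
    have hsub : (univ : Set ℝ) ⊆ ⋃ c : ℚ, {x | φ x = c} := fun x _ => mem_iUnion.2 ⟨φ x, rfl⟩
    refine IsMeagre.mono hsub (isMeagre_iUnion fun c => ?_)
    by_cases hc : ∃ w, φ w = c
    · obtain ⟨w, hw⟩ := hc
      refine IsMeagre.mono ?_ (isMeagre_translate hker (-w))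
      intro x hx
      change φ (x + -w) = 0
      rw [map_add, map_neg, hw, show φ x = c from hx, add_neg_cancel]
    · refine IsMeagre.mono ?_ IsMeagre.empty
      intro x hx
      exact (hc ⟨x, hx⟩).elim
  exact not_isMeagre_of_isOpen isOpen_univ univ_nonempty huniv

/-- The irrationals are not `1`-embedded in the Michael line. -/
theorem not_oneEmbedded : ¬ OneEmbedded E := by
  classical
  intro hemb
  obtain ⟨φ, v, hv, hφ⟩ := exists_functional
  -- the critical subset of `E`
  let C : Set E := {x | φ (x : Michael).val = φ v}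
  have hCcl : FunctionallyClosed C := by
    refine ⟨fun x => if x ∈ C then 0 else 1, ?_, ?_⟩
    · have : DiscreteTopology E := by
        refine discreteTopology_iff_isOpen_singleton.2 fun x => ?_
        have h1 : IsOpen ({(x : Michael)} : Set Michael) :=
          isOpen_of_subset_E (singleton_subset_iff.2 x.2)
        have h2 := h1.preimage (continuous_subtype_val (p := fun x => x ∈ E))
        convert h2 using 1
        ext y
        simp [Subtype.ext_iff]
      exact continuous_of_discreteTopology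
    · ext x
      by_cases hx : x ∈ C <;> simp [hx]
  have hCF : FunctionallyFσ C := ⟨fun _ => C, fun _ => hCcl, (iUnion_const C).symm⟩
  obtain ⟨B, ⟨Z, hZ, rfl⟩, hCB⟩ := hemb.1 C hCF
  -- `{φ = φ v}` is contained in `B`
  have hCsub : {x : ℝ | φ x = φ v} ⊆ ⋃ n, under (Z n) := by
    intro x hx
    have hxirr : Irrational x := by
      rintro ⟨q, rfl⟩
      rw [mem_ofPred_eq, hφ] at hx
      exact hv hx.symm
    have h1 : (⟨⟨x⟩, hxirr⟩ : E) ∈ C := hx
    rw [hCB] at h1
    obtain ⟨n, hn⟩ := mem_iUnion.1 h1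
    exact mem_iUnion.2 ⟨n, hn⟩
  by_cases hall : ∀ n, IsNowhereDense (under (Z n))
  · have hm : IsMeagre {x : ℝ | φ x = φ v} :=
      IsMeagre.mono hCsub (isMeagre_iUnion fun n => (hall n).isMeagre)
    have hm2 := isMeagre_translate hm v
    refine not_meagre_ker φ hφ isOpen_univ univ_nonempty (IsMeagre.mono ?_ hm2)
    rintro x ⟨-, hx⟩
    change φ (x + v) = φ v
    rw [map_add, show φ x = 0 from hx, zero_add]
  · push Not at hall
    obtain ⟨n, hn⟩ := hall
    rcases zero_set_dichotomy (hZ n) with h | ⟨J, hJ, hne, hm⟩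
    · exact hn h
    · have hQ : IsMeagre (range ((↑) : ℚ → ℝ)) := by
        have h1 : range ((↑) : ℚ → ℝ) = ⋃ q : ℚ, {(q : ℝ)} := by
          ext x; simp [eq_comm]
        rw [h1]
        refine isMeagre_iUnion fun q => ?_
        refine IsNowhereDense.isMeagre ?_
        rw [IsNowhereDense, closure_singleton]
        exact interior_singleton _
      refine not_meagre_ker φ hφ hJ hne (IsMeagre.mono ?_ (hm.union hQ))
      rintro x ⟨hxJ, hx⟩
      by_cases hxZ : x ∈ under (Z n)
      · right
        by_contra hirr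
        have h1 : (⟨⟨x⟩, hirr⟩ : E) ∈ (Subtype.val ⁻¹' (⋃ n, Z n) : Set E) :=
          mem_iUnion.2 ⟨n, hxZ⟩
        rw [← hCB] at h1
        have h2 : φ x = φ v := h1
        rw [show φ x = 0 from hx] at h2
        exact hv h2.symm
      · exact Or.inl ⟨hxJ, hxZ⟩

/-- Q1 of MP_aca66f_gt: yes.  There is a normal (`T₄`) space with a functionally `G_δ` subset which
is not `1`-embedded. -/
theorem result : ∃ (X : Type) (_ : TopologicalSpace X), T4Space X ∧
    ∃ E : Set X, FunctionallyGδ E ∧ ¬ OneEmbedded E :=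
  ⟨Michael, inferInstance, inferInstance, E, functionallyGδ_E, not_oneEmbedded⟩

end Pool.Agent.Results.MP_aca66f_gt.MichaelLine
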